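import Pool.Agent.EOLForms.LinGr

/-!
If the s-grammatical family of a context-free grammar form `G` is the family of some EOL form,
then it consists of linear context-free languages.
-/

namespace Pool.Agent.Results.MP_123b7c_lc.CompleteEOLForms

open Pool.Agent.EOLForms

/-- For every context-free grammar form `G`: if some EOL form is complete for the family
`sFam G`, then every language of `sFam G` is linear (languages being identified modulo the empty
word). -/
theorem result : ∀ G : Gr, G.IsCF →
    (∃ F : Gr, F.IsEOL ∧ FamEq (eolFam F) (sFam G)) → FamSub (sFam G) linFam := by
  rintro G _ ⟨F, _, hF⟩
  exact main G F hF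

end Pool.Agent.Results.MP_123b7c_lc.CompleteEOLForms
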